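import Pool.Agent.V7H88.DZ.J1

set_option autoImplicit false

/-!
# Affine images of the set of ordinates

Assume the Riemann hypothesis, and let `1 < r < 1 + √2` and `c` be real. If the zeros of zeta with ordinates up to `T`,
repeated according to multiplicity, are matched injectively to zeros so that the zero with ordinate `γ` is matched to
one with ordinate within `κ / log T` of `r γ + c`, then at least `κ T log T` distinct ordinates up to `T` belong to
zeros which are not matched. In particular at least `κ T log T` of the ordinates `γ ≤ T` have the property that `r γ + c`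
is not an ordinate or is an ordinate of smaller multiplicity.
-/

open Complex Filter Topology Set

namespace Pool.Agent.Results.MP_0ec205_nt.DilatedOrdinatesH88

/-- The multiplicity of the zero `1/2 + iγ` of the Riemann zeta function (`0` if `1/2 + iγ` is not a zero). -/
noncomputable def mult (γ : ℝ) : ℕ := analyticOrderNatAt riemannZeta (1 / 2 + Complex.I * γ)

open Pool.Agent.V7H88.DZ in
/-- Assume the Riemann hypothesis, `1 < r < 1 + √2` and `c` real. There are `κ > 0` and `T₀` such that for `T ≥ T₀`: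
for every set `S` of pairs `(γ, j)` with `0 < γ ≤ T` and `j < mult γ`, and every map `σ` to such pairs (of any height),
injective on `S`, with `|σ(γ, j).1 - (r γ + c)| ≤ κ / log T` on `S`, at least `κ T log T` ordinates `γ ∈ (0, T]` have
some `(γ, j)`, `j < mult γ`, outside `S`; and at least `κ T log T` ordinates `γ ∈ (0, T]` satisfy
`mult (r γ + c) < mult γ`. -/
theorem result (hRH : RiemannHypothesis) (r c : ℝ) (hr : 1 < r) (hr2 : r < 1 + Real.sqrt 2) :
    ∃ κ T₀ : ℝ, 0 < κ ∧ ∀ T : ℝ, T₀ ≤ T →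
      (∀ (S : Set (ℝ × ℕ)) (σ : ℝ × ℕ → ℝ × ℕ),
        (∀ p ∈ S, 0 < p.1 ∧ p.1 ≤ T ∧ p.2 < mult p.1) → Set.InjOn σ S →
        (∀ p ∈ S, (σ p).2 < mult (σ p).1 ∧ |(σ p).1 - (r * p.1 + c)| ≤ κ / Real.log T) →
        κ * (T * Real.log T) ≤ ({γ : ℝ | 0 < γ ∧ γ ≤ T ∧ ∃ j < mult γ, (γ, j) ∉ S}.ncard : ℝ)) ∧
      κ * (T * Real.log T) ≤ ({γ : ℝ | 0 < γ ∧ γ ≤ T ∧ mult (r * γ + c) < mult γ}.ncard : ℝ) := by
  classical
  have hRHs : SP.RHs := by
    intro s h0 h1 hz
    refine hRH s hz ?_ ?_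
    · rintro ⟨n, hn⟩
      rw [hn] at h0
      simp at h0
      have : (0 : ℝ) ≤ n := n.cast_nonneg
      linarith
    · rintro rfl
      simp at h1
  obtain ⟨κ1, κ2, T0, hκ1, hκ11, hκ2, hT0, hgood⟩ := good_count hRHs r c hr hr2
  have hpt : ∀ γ : ℝ, (⟨1 / 2, γ⟩ : ℂ) = 1 / 2 + Complex.I * γ := by
    intro γ
    apply Complex.ext
    · simp
    · simp
  have hmul : ∀ γ : ℝ, SP.mu ⟨1 / 2, γ⟩ = mult γ := by
    intro γ
    unfold SP.mu H370.mult mult
    rw [hpt]
  have hline : ∀ (T : ℝ) (s : ℂ), s ∈ SP.ZZ T → s = ⟨1 / 2, s.im⟩ := by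
    intro T s hs
    apply Complex.ext
    · exact hRHs s hs.1 hs.2.1 hs.2.2.2.2
    · rfl
  have hfinite : ∀ T : ℝ, {γ : ℝ | 0 < γ ∧ γ ≤ T ∧ 0 < mult γ}.Finite := by
    intro T
    refine ((SG.ZS_finite T).image (fun s : ℂ => s.im)).subset ?_
    rintro γ ⟨h1, h2, h3⟩
    refine ⟨⟨1 / 2, γ⟩, ⟨?_, by norm_num, by norm_num, h1, h2⟩, rfl⟩
    rw [hpt]
    exact apply_eq_zero_of_analyticOrderNatAt_ne_zero h3.ne'
  set κ : ℝ := min κ1 (κ2 / 4) with hκ
  have hκ0 : 0 < κ := lt_min hκ1 (by positivity)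
  refine ⟨κ, 2 * T0, hκ0, fun T hT => ?_⟩
  set T1 : ℝ := T / 2 with hT1
  have hT01 : T0 ≤ T1 := by linarith
  have hT1' : (1 : ℝ) ≤ T1 := by linarith
  have hTT : 2 * T1 = T := by linarith
  have hTpos : 0 < T := by linarith
  have hlog1 : 0 < Real.log T1 := Real.log_pos (by linarith)
  have hlog2 : Real.log T1 ≤ Real.log T := Real.log_le_log (by linarith) (by linarith)
  have hlog3 : Real.log T ≤ 2 * Real.log T1 := by
    have h1 : Real.log T = Real.log 2 + Real.log T1 := by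
      rw [← Real.log_mul (by norm_num) (by linarith), hTT]
    have h2 : Real.log 2 ≤ Real.log T1 := Real.log_le_log (by norm_num) (by linarith)
    linarith
  have hmain : ∀ (S : Set (ℝ × ℕ)) (σ : ℝ × ℕ → ℝ × ℕ),
        (∀ p ∈ S, 0 < p.1 ∧ p.1 ≤ T ∧ p.2 < mult p.1) → Set.InjOn σ S →
        (∀ p ∈ S, (σ p).2 < mult (σ p).1 ∧ |(σ p).1 - (r * p.1 + c)| ≤ κ / Real.log T) →
        κ * (T * Real.log T) ≤ ({γ : ℝ | 0 < γ ∧ γ ≤ T ∧ ∃ j < mult γ, (γ, j) ∉ S}.ncard : ℝ) := by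
    intro S σ _ hinj hσ
    set Bk : Finset ℂ := (ZZ_fin hT1').toFinset.filter
      (fun s => T1 + T1 / 40 ≤ s.im ∧ s.im ≤ 2 * T1 - T1 / 40) with hBk
    set A : Finset ℂ := Bk.filter (fun s => ∀ j < SP.mu s, (s.im, j) ∈ S) with hA
    have hmemB : ∀ s, s ∈ Bk ↔ s ∈ SP.ZZ T1 ∧ T1 + T1 / 40 ≤ s.im ∧ s.im ≤ 2 * T1 - T1 / 40 := by
      intro s
      rw [hBk, Finset.mem_filter, Set.Finite.mem_toFinset]
    have hmemA : ∀ s ∈ A, s ∈ SP.ZZ T1 ∧ ∀ j < SP.mu s, (s.im, j) ∈ S := by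
      intro s hs
      rw [hA, Finset.mem_filter, hmemB] at hs
      exact ⟨hs.1.1, hs.2⟩
    have h1 := hgood T1 hT01 Bk A hmemB (Finset.filter_subset _ _)
      (fun p => (⟨1 / 2, (σ (p.1.im, p.2)).1⟩, (σ (p.1.im, p.2)).2))
      (fun s hs j hj s' hs' j' hj' heq => by
        obtain ⟨a1, a2⟩ := hmemA s hs
        obtain ⟨a3, a4⟩ := hmemA s' hs'
        simp only [Prod.mk.injEq, Complex.mk.injEq, true_and] at heq
        have h2 := hinj (a2 j hj) (a4 j' hj') (Prod.ext heq.1 heq.2)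
        rw [Prod.mk.injEq] at h2
        refine ⟨?_, h2.2⟩
        rw [hline T1 s a1, hline T1 s' a3, h2.1])
      (fun s hs j hj => by
        obtain ⟨a1, a2⟩ := hmemA s hs
        obtain ⟨b1, b2⟩ := hσ _ (a2 j hj)
        refine ⟨rfl, ?_, ?_⟩
        · simp only
          rw [hmul]
          exact b1
        · simp only
          refine b2.trans ?_
          have hκκ : κ ≤ κ1 := min_le_left _ _
          have hlog0 : 0 ≤ Real.log T := by linarith
          calc κ / Real.log T ≤ κ1 / Real.log T := by gcongr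
            _ ≤ κ1 / Real.log T1 := by gcongr)
    have hfin : {γ : ℝ | 0 < γ ∧ γ ≤ T ∧ ∃ j < mult γ, (γ, j) ∉ S}.Finite := by
      refine (hfinite T).subset ?_
      rintro γ ⟨h2, h3, j, hj, -⟩
      exact ⟨h2, h3, by omega⟩
    have h2 : (Bk \ A).card ≤ {γ : ℝ | 0 < γ ∧ γ ≤ T ∧ ∃ j < mult γ, (γ, j) ∉ S}.ncard := by
      rw [← Set.ncard_coe_finset]
      refine Set.ncard_le_ncard_of_injOn (fun s : ℂ => s.im) ?_ ?_ hfin
      · intro s hs
        rw [Finset.mem_coe, Finset.mem_sdiff] at hs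
        obtain ⟨h3, h4⟩ := hs
        have h5 : ¬ ∀ j < SP.mu s, (s.im, j) ∈ S := by
          intro h6
          apply h4
          rw [hA, Finset.mem_filter]
          exact ⟨h3, h6⟩
        push Not at h5
        obtain ⟨j, hj, hjS⟩ := h5
        obtain ⟨c1, c2, c3⟩ := (hmemB s).1 h3
        refine ⟨by linarith, by linarith, j, ?_, hjS⟩
        rw [← hmul, ← hline T1 s c1]
        exact hj
      · intro s hs s' hs' heq
        rw [Finset.mem_coe, Finset.mem_sdiff] at hs hs'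
        have c1 := ((hmemB s).1 hs.1).1
        have c2 := ((hmemB s').1 hs'.1).1
        simp only at heq
        rw [hline T1 s c1, hline T1 s' c2, heq]
    have h3 : ((Bk \ A).card : ℝ) ≤
        ({γ : ℝ | 0 < γ ∧ γ ≤ T ∧ ∃ j < mult γ, (γ, j) ∉ S}.ncard : ℝ) := by exact_mod_cast h2
    refine le_trans ?_ (h1.trans h3)
    have h4 : T * Real.log T ≤ 4 * (T1 * Real.log T1) := by
      calc T * Real.log T ≤ T * (2 * Real.log T1) := by gcongr
        _ = _ := by
          rw [hT1]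
          ring
    calc κ * (T * Real.log T) ≤ κ2 / 4 * (4 * (T1 * Real.log T1)) := by
          have h5 : κ ≤ κ2 / 4 := min_le_right _ _
          have h6 : 0 ≤ T * Real.log T := mul_nonneg hTpos.le (by linarith)
          exact mul_le_mul h5 h4 h6 (by positivity)
      _ = _ := by ring
  refine ⟨hmain, ?_⟩
  have h1 := hmain {p : ℝ × ℕ | 0 < p.1 ∧ p.1 ≤ T ∧ p.2 < mult p.1 ∧ mult p.1 ≤ mult (r * p.1 + c)}
    (fun p => (r * p.1 + c, p.2)) (fun p hp => ⟨hp.1, hp.2.1, hp.2.2.1⟩)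
    (fun p _ q _ heq => by
      simp only [Prod.mk.injEq] at heq
      refine Prod.ext ?_ heq.2
      have h2 : r * p.1 = r * q.1 := by linarith [heq.1]
      exact mul_left_cancel₀ (by linarith) h2)
    (fun p hp => by
      refine ⟨lt_of_lt_of_le hp.2.2.1 hp.2.2.2, ?_⟩
      simp only [sub_self, abs_zero]
      have : 0 < Real.log T := by linarith
      positivity)
  refine h1.trans ?_
  have h2 : {γ : ℝ | 0 < γ ∧ γ ≤ T ∧ ∃ j < mult γ, (γ, j) ∉
      {p : ℝ × ℕ | 0 < p.1 ∧ p.1 ≤ T ∧ p.2 < mult p.1 ∧ mult p.1 ≤ mult (r * p.1 + c)}} ⊆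
      {γ : ℝ | 0 < γ ∧ γ ≤ T ∧ mult (r * γ + c) < mult γ} := by
    rintro γ ⟨h3, h4, j, hj, hn⟩
    refine ⟨h3, h4, ?_⟩
    by_contra hcon
    push Not at hcon
    exact hn ⟨h3, h4, hj, hcon⟩
  have h3 : {γ : ℝ | 0 < γ ∧ γ ≤ T ∧ mult (r * γ + c) < mult γ}.Finite := by
    refine (hfinite T).subset ?_
    rintro γ ⟨h4, h5, h6⟩
    exact ⟨h4, h5, by omega⟩
  exact_mod_cast Set.ncard_le_ncard h2 h3

end Pool.Agent.Results.MP_0ec205_nt.DilatedOrdinatesH88
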