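import Pool.Agent.V7H60.LU.Main

/-! Assume RH.  Let `c` be the coefficients of a linear form in `n` variables, `m` the number of
distinct coefficients, and let the variables run through sets of positive ordinates of zeta zeros
up to `T` of positive relative density.  The number of tuples at which the form is within
`|c i1| / (m log T)` of any given real number `y` is bounded by the expected order of magnitude,
up to a term decaying exponentially in `m`. -/

set_option autoImplicit false

open Finset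

namespace Pool.Agent.Results.MP_0ec205_nt.LongFormsAnyTargetH60

theorem result (hRH : RiemannHypothesis) (η : ℝ) (hη : 0 < η) : ∃ K δ : ℝ, 0 < K ∧ 0 < δ ∧
    ∀ θ : ℝ, 0 < θ → ∃ T₀ : ℝ, ∀ T : ℝ, T₀ ≤ T →
    ∀ (n : ℕ) (c : Fin n → ℝ) (A : Fin n → Finset ℝ),
      (∀ i j k, c i ≠ c j → |c k| * Real.log T ^ (θ - 1) ≤ |c i - c j|) →
      (∀ i, ∀ γ ∈ A i, 0 < γ ∧ γ ≤ T ∧ riemannZeta (1 / 2 + Complex.I * (γ : ℂ)) = 0) →
      (∀ i, η * (T * Real.log T) ≤ (A i).card) →
      ∀ i0 i1, i0 ≠ i1 → |c i1| ≤ |c i0| → (∀ k, k ≠ i0 → |c k| ≤ |c i1|) → c i1 ≠ 0 → ∀ y : ℝ,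
      (((Fintype.piFinset A).filter (fun x : Fin n → ℝ => |∑ k, c k * x k - y| ≤
        |c i1| / ((univ.image c).card * Real.log T))).card : ℝ) ≤
      K / (univ.image c).card * (1 / Real.sqrt (∑ k ∈ univ.erase i0, (c k / c i1) ^ 2) +
        Real.exp (-(δ * (univ.image c).card))) * (∏ k, ((A k).card : ℝ)) / (T * Real.log T) :=
  Pool.Agent.V7H60.LU.main hRH η hη

end Pool.Agent.Results.MP_0ec205_nt.LongFormsAnyTargetH60
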