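import Pool.Agent.V7H6.NR.Poly

/-! Assume RH.  Let `γ 1 ≤ γ 2 ≤ …` be the positive ordinates of the zeros of the zeta function,
listed with multiplicity, and let `K` and `d` be given.

* (a) For every `θ > 0` there are a window length `B` and an `ε > 0` such that for all large `N`
  all but at most `θ N` of the `n ≤ N` have the following property: for **all** real `c 0, …, c K`,
  one of them of absolute value at least one, and **all** real polynomials `P` of degree at most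
  `d`, some `i < B` satisfies `|∑ c j γ (n + i + j) - P i| ≥ ε / log N`.
* (b) The same for relations `∑ p j (n) γ (n + j) = q (n)` with polynomial coefficients of degree
  at most `d`: for all large `N` and all real polynomials `p 0, …, p K` (not all zero), `q` of
  degree at most `d`, all but at most `θ N` of the windows `n, …, n + B - 1` contain an index where
  the relation fails by `ε / log N` times the sum of the absolute values of the coefficients.
* (c) Consequently such a relation fails, by this amount, for at least `ρ N` of the `n ≤ N`. -/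

set_option autoImplicit false

open Finset Polynomial

namespace Pool.Agent.Results.MP_0ec205_nt.NoRecurrencesH6

/-- the number of zeros of the zeta function in the critical strip with ordinate in `(0, t]`,
counted with multiplicity -/
noncomputable def cnt (t : ℝ) : ℕ :=
  ∑ᶠ s ∈ {s : ℂ | riemannZeta s = 0 ∧ 0 < s.re ∧ s.re < 1 ∧ 0 < s.im ∧ s.im ≤ t},
    analyticOrderNatAt riemannZeta s

/-- the `n`-th positive ordinate, in nondecreasing order and with multiplicity -/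
noncomputable def γ (n : ℕ) : ℝ := sInf {t : ℝ | n ≤ cnt t}

theorem result (hRH : RiemannHypothesis) (K d : ℕ) :
    (∀ θ : ℝ, 0 < θ → ∃ B : ℕ, ∃ ε : ℝ, 0 < ε ∧ ∃ N₀ : ℕ, ∀ N : ℕ, N₀ ≤ N →
      ({n : ℕ | 1 ≤ n ∧ n ≤ N ∧ ∃ (c : ℕ → ℝ) (P : ℝ[X]), (∃ j ≤ K, 1 ≤ |c j|) ∧
        P.natDegree ≤ d ∧ ∀ i < B,
          |∑ j ∈ range (K + 1), c j * γ (n + i + j) - P.eval (i : ℝ)| <
            ε / Real.log N}.ncard : ℝ) ≤ θ * N) ∧
    (∀ θ : ℝ, 0 < θ → ∃ B : ℕ, ∃ ε : ℝ, 0 < ε ∧ ∃ N₀ : ℕ, ∀ N : ℕ, N₀ ≤ N →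
      ∀ (p : ℕ → ℝ[X]) (q : ℝ[X]), (∀ j ≤ K, (p j).natDegree ≤ d) → q.natDegree ≤ d →
      (∃ j ≤ K, p j ≠ 0) →
      ({n : ℕ | 1 ≤ n ∧ n ≤ N ∧ ∀ i < B,
        |∑ j ∈ range (K + 1), (p j).eval ((n + i : ℕ) : ℝ) * γ (n + i + j) -
          q.eval ((n + i : ℕ) : ℝ)| <
            ε / Real.log N * ∑ j ∈ range (K + 1), |(p j).eval ((n + i : ℕ) : ℝ)|}.ncard : ℝ) ≤
        θ * N) ∧
    (∃ ρ : ℝ, 0 < ρ ∧ ∃ ε : ℝ, 0 < ε ∧ ∃ N₀ : ℕ, ∀ N : ℕ, N₀ ≤ N →
      ∀ (p : ℕ → ℝ[X]) (q : ℝ[X]), (∀ j ≤ K, (p j).natDegree ≤ d) → q.natDegree ≤ d →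
      (∃ j ≤ K, p j ≠ 0) →
      ρ * N ≤ ({n : ℕ | 1 ≤ n ∧ n ≤ N ∧
        ε / Real.log N * ∑ j ∈ range (K + 1), |(p j).eval (n : ℝ)| ≤
          |∑ j ∈ range (K + 1), (p j).eval (n : ℝ) * γ (n + j) - q.eval (n : ℝ)|}.ncard : ℝ)) := by
  classical
  have hR : SP.RHs := by
    intro s h1 h2 h0
    apply hRH s h0
    · rintro ⟨n, hn⟩
      rw [hn] at h1
      simp at h1
      have : (0 : ℝ) ≤ n := Nat.cast_nonneg n
      linarith
    · intro h
      rw [h] at h2
      simp at h2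
  have hγ : ∀ n, γ n = SG.ord n := fun _ => rfl
  refine ⟨fun θ hθ => ?_, fun θ hθ => ?_, ?_⟩
  · obtain ⟨B, ε, hε, h⟩ := Pool.Agent.V7H6.NR.main_ord hR K d θ hθ
    obtain ⟨N₀, hN⟩ := h.exists_forall_of_atTop
    refine ⟨B, ε, hε, N₀, fun N hNN => ?_⟩
    have := hN N hNN
    rw [Pool.Agent.V7H6.NR.card_eq_ncard] at this
    exact this
  · obtain ⟨B, ε, hε, h⟩ := Pool.Agent.V7H6.NR.main_poly hR K d θ hθ
    obtain ⟨N₀, hN⟩ := h.exists_forall_of_atTop
    refine ⟨B, ε, hε, N₀, fun N hNN p q hp hq hne => ?_⟩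
    have := hN N hNN p q hp hq hne
    rw [Pool.Agent.V7H6.NR.card_eq_ncard] at this
    exact this
  · obtain ⟨ρ, ε, hρ, hε, h⟩ := Pool.Agent.V7H6.NR.main_prop hR K d
    obtain ⟨N₀, hN⟩ := h.exists_forall_of_atTop
    refine ⟨ρ, hρ, ε, hε, N₀, fun N hNN p q hp hq hne => ?_⟩
    have := hN N hNN p q hp hq hne
    rw [Pool.Agent.V7H6.NR.card_eq_ncard] at this
    exact this

end Pool.Agent.Results.MP_0ec205_nt.NoRecurrencesH6
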