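import Pool.Agent.V7H88.DT.L

set_option autoImplicit false

/-!
# Translates and reflections of the set of ordinates

Assume the Riemann hypothesis, `K > 0` and `3/4 < θ < 1`. Let `r` be `1` or `-1`, and let `c` be a real number, which
may depend on `a`, with `|c| ≥ K / log a` and `a ^ (1 - κ) ≤ r a + c ≤ a ^ (1 + κ)`. If zeros of zeta with ordinates
in `[a, a + a ^ θ]`, repeated according to multiplicity, are matched injectively to zeros so that the zero with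
ordinate `γ` is matched to one with ordinate within `κ / log a` of `r γ + c`, then at least `κ a ^ θ log a` distinct
ordinates in the interval belong to zeros which are not matched. In particular for at least `κ a ^ θ log a` of the
ordinates `γ` in the interval `r γ + c` is not an ordinate or is an ordinate of smaller multiplicity.
-/

open Complex Filter Topology Set

namespace Pool.Agent.Results.MP_0ec205_nt.TranslatedOrdinatesH88

/-- The multiplicity of the zero `1/2 + iγ` of the Riemann zeta function (`0` if `1/2 + iγ` is not a zero). -/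
noncomputable def mult (γ : ℝ) : ℕ := analyticOrderNatAt riemannZeta (1 / 2 + Complex.I * γ)

/-- inequalities for large `a` -/
theorem ev_res (K k κ θ T0 : ℝ) (hk : 0 < k) (hk1 : k ≤ 1 / 2) (hκ : 0 < κ)
    (hκ1 : κ ≤ k / 2) (hκ2 : κ ≤ (1 - θ) / 2) (hθ : 3 / 4 < θ) (hθ1 : θ < 1) (hK : 0 < K) :
    ∃ a0 : ℝ, 100 ≤ a0 ∧ ∀ a : ℝ, a0 ≤ a → ∀ r c : ℝ, (r = 1 ∨ r = -1) → K / Real.log a ≤ |c| →
    a ^ (1 - κ) ≤ r * a + c → r * a + c ≤ a ^ (1 + κ) →
    T0 ≤ 2 / 3 * a ∧ 1 ≤ Real.log (2 / 3 * a) ∧ Real.log (2 / 3 * a) ≤ Real.log a ∧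
    Real.log a ≤ 2 * Real.log (2 / 3 * a) ∧
    40000 ≤ 2 / 3 * (r * a + c) ∧ (2 / 3 * a) ^ (1 - k) ≤ 2 / 3 * (r * a + c) ∧
    2 / 3 * (r * a + c) ≤ (2 / 3 * a) ^ (1 + k) ∧ K / 2 / Real.log (2 / 3 * a) ≤ |c| ∧
    |c| ≤ Real.exp (3 * Real.log (2 / 3 * a)) ∧ (2 / 3 * a) ^ θ ≤ a ^ θ ∧
    a ^ θ ≤ 2 / 3 * a / 40 ∧ a ^ θ ≤ 2 / 3 * (r * a + c) / 40 := by
  have ev : ∀ᶠ a : ℝ in atTop, 100 ≤ a ∧ 3 / 2 * T0 ≤ a ∧ 4 ≤ Real.log a ∧ 60000 ≤ a ^ (1 / 2 : ℝ) ∧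
      3 / 2 ≤ a ^ (k / 2) ∧ 60 ≤ a ^ ((1 - θ) / 2) := by
    filter_upwards [eventually_ge_atTop 100, eventually_ge_atTop (3 / 2 * T0),
      Real.tendsto_log_atTop.eventually_ge_atTop 4,
      (tendsto_rpow_atTop (show (0 : ℝ) < 1 / 2 by norm_num)).eventually_ge_atTop 60000,
      (tendsto_rpow_atTop (show (0 : ℝ) < k / 2 by linarith)).eventually_ge_atTop (3 / 2),
      (tendsto_rpow_atTop (show (0 : ℝ) < (1 - θ) / 2 by linarith)).eventually_ge_atTop 60]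
      with a x1 x2 x3 x4 x5 x6
    exact ⟨x1, x2, x3, x4, x5, x6⟩
  obtain ⟨a0, ha0⟩ := Filter.eventually_atTop.1 ev
  refine ⟨max 100 a0, le_max_left _ _, fun a ha r c hr hc hX1 hX2 => ?_⟩
  obtain ⟨x1, x2, x3, x4, x5, x6⟩ := ha0 a ((le_max_right _ _).trans ha)
  have ha0 : 0 < a := by linarith
  have ha1 : 1 ≤ a := by linarith
  set T := 2 / 3 * a with hT
  have hT0 : 0 < T := by positivity
  have hTa : T ≤ a := by linarith
  have hlog1 : Real.log T ≤ Real.log a := Real.log_le_log hT0 hTa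
  have hlog2 : Real.log a ≤ Real.log T + 1 := by
    have e1 : Real.log T = Real.log a + Real.log (2 / 3) := by
      rw [hT, Real.log_mul (by norm_num) ha0.ne']
      ring
    have e2 : -1 ≤ Real.log (2 / 3) := by
      rw [Real.le_log_iff_exp_le (by norm_num), Real.exp_neg]
      have h1 : (3 / 2 : ℝ) ≤ Real.exp 1 := by linarith [Real.add_one_le_exp (1 : ℝ)]
      calc (Real.exp 1)⁻¹ ≤ (3 / 2 : ℝ)⁻¹ := inv_anti₀ (by norm_num) h1
        _ = 2 / 3 := by norm_num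
    linarith
  have hLT : 0 < Real.log T := by linarith
  have hmono : ∀ x y : ℝ, x ≤ y → a ^ x ≤ a ^ y := fun x y h =>
    Real.rpow_le_rpow_of_exponent_le ha1 h
  have hak : a ^ (1 - k) * a ^ (k / 2) = a ^ (1 - k / 2) := by
    rw [← Real.rpow_add ha0]
    congr 1
    ring
  have h1 : a ^ (1 - k) * (3 / 2) ≤ a ^ (1 - κ) := by
    calc a ^ (1 - k) * (3 / 2) ≤ a ^ (1 - k) * a ^ (k / 2) := by gcongr
      _ = a ^ (1 - k / 2) := hak
      _ ≤ _ := hmono _ _ (by linarith)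
  have h2 : a ^ (1 + κ) * (3 / 2) ≤ a ^ (1 + k) := by
    calc a ^ (1 + κ) * (3 / 2) ≤ a ^ (1 + κ) * a ^ (k / 2) := by gcongr
      _ = a ^ (1 + κ + k / 2) := (Real.rpow_add ha0 _ _).symm
      _ ≤ _ := hmono _ _ (by linarith)
  have h3 : a ^ θ * 60 ≤ a ^ (1 - κ) := by
    calc a ^ θ * 60 ≤ a ^ θ * a ^ ((1 - θ) / 2) := by gcongr
      _ = a ^ (θ + (1 - θ) / 2) := (Real.rpow_add ha0 _ _).symm
      _ ≤ _ := hmono _ _ (by linarith)
  have h4 : a ^ (1 - κ) ≤ a := by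
    calc a ^ (1 - κ) ≤ a ^ (1 : ℝ) := hmono _ _ (by linarith)
      _ = a := Real.rpow_one a
  refine ⟨by linarith, by linarith, hlog1, by linarith, ?_, ?_, ?_, ?_, ?_, ?_, ?_, ?_⟩
  · have h5 : a ^ (1 / 2 : ℝ) ≤ a ^ (1 - κ) := hmono _ _ (by linarith)
    linarith
  · have h5 : T ^ (1 - k) ≤ a ^ (1 - k) := Real.rpow_le_rpow hT0.le hTa (by linarith)
    linarith
  · have h5 : T ^ (1 + k) = (2 / 3 : ℝ) ^ (1 + k) * a ^ (1 + k) := by
      rw [hT, Real.mul_rpow (by norm_num) ha0.le]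
    have h6 : (4 / 9 : ℝ) ≤ (2 / 3 : ℝ) ^ (1 + k) := by
      calc (4 / 9 : ℝ) = (2 / 3 : ℝ) ^ (2 : ℝ) := by
            rw [show (2 : ℝ) = ((2 : ℕ) : ℝ) by norm_num, Real.rpow_natCast]
            norm_num
        _ ≤ _ := Real.rpow_le_rpow_of_exponent_ge (by norm_num) (by norm_num) (by linarith)
    have h7 : 0 < a ^ (1 + k) := Real.rpow_pos_of_pos ha0 _
    have h8 : 4 / 9 * a ^ (1 + k) ≤ T ^ (1 + k) := by
      rw [h5]
      gcongr
    linarith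
  · refine le_trans ?_ hc
    rw [div_div, div_le_div_iff₀ (by positivity) (by linarith)]
    have h5 : Real.log a ≤ 2 * Real.log T := by linarith
    gcongr
  · have h5 : Real.exp (3 * Real.log T) = T ^ 3 := by
      rw [← Real.exp_log hT0, ← Real.exp_nat_mul]
      norm_num
    rw [h5]
    have h6 : a ^ (1 + κ) ≤ a ^ 2 := by
      calc a ^ (1 + κ) ≤ a ^ (2 : ℝ) := hmono _ _ (by linarith)
        _ = a ^ 2 := by norm_num
    have h7 : 0 ≤ a ^ (1 - κ) := Real.rpow_nonneg ha0.le _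
    have h8 : |c| ≤ a ^ 2 + a := by
      rw [abs_le]
      rcases hr with rfl | rfl
      · constructor <;> nlinarith
      · constructor <;> nlinarith
    have h9 : T ^ 3 = 8 / 27 * a ^ 3 := by
      rw [hT]
      ring
    rw [h9]
    nlinarith
  · exact Real.rpow_le_rpow hT0.le hTa (by linarith)
  · linarith
  · linarith

open Pool.Agent.V7H88.DZ in
/-- Assume the Riemann hypothesis, `K > 0` and `3/4 < θ < 1`. There are `κ > 0` and `a₀` such that for `a ≥ a₀`,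
`r = 1` or `r = -1`, and real `c` with `|c| ≥ K / log a` and `a ^ (1 - κ) ≤ r a + c ≤ a ^ (1 + κ)`: for every set `S`
of pairs `(γ, j)` with `a ≤ γ ≤ a + a ^ θ` and `j < mult γ`, and every map `σ` to such pairs (of any height), injective
on `S`, with `|σ(γ, j).1 - (r γ + c)| ≤ κ / log a` on `S`, at least `κ a ^ θ log a` ordinates `γ` in
`[a, a + a ^ θ]` have some `(γ, j)`, `j < mult γ`, outside `S`; and at least `κ a ^ θ log a` ordinates `γ` in
`[a, a + a ^ θ]` satisfy `mult (r γ + c) < mult γ`. -/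
theorem result (hRH : RiemannHypothesis) (K θ : ℝ) (hK : 0 < K) (hθ : 3 / 4 < θ) (hθ1 : θ < 1) :
    ∃ κ a₀ : ℝ, 0 < κ ∧ ∀ a : ℝ, a₀ ≤ a → ∀ r c : ℝ, (r = 1 ∨ r = -1) → K / Real.log a ≤ |c| →
      a ^ (1 - κ) ≤ r * a + c → r * a + c ≤ a ^ (1 + κ) →
      (∀ (S : Set (ℝ × ℕ)) (σ : ℝ × ℕ → ℝ × ℕ),
        (∀ p ∈ S, a ≤ p.1 ∧ p.1 ≤ a + a ^ θ ∧ p.2 < mult p.1) → Set.InjOn σ S →
        (∀ p ∈ S, (σ p).2 < mult (σ p).1 ∧ |(σ p).1 - (r * p.1 + c)| ≤ κ / Real.log a) →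
        κ * (a ^ θ * Real.log a) ≤
          ({γ : ℝ | a ≤ γ ∧ γ ≤ a + a ^ θ ∧ ∃ j < mult γ, (γ, j) ∉ S}.ncard : ℝ)) ∧
      κ * (a ^ θ * Real.log a) ≤
        ({γ : ℝ | a ≤ γ ∧ γ ≤ a + a ^ θ ∧ mult (r * γ + c) < mult γ}.ncard : ℝ) := by
  classical
  have hRHs : SP.RHs := by
    intro s h0 h1 hz
    refine hRH s hz ?_ ?_
    · rintro ⟨n, hn⟩
      rw [hn] at h0
      simp at h0
      have : (0 : ℝ) ≤ n := n.cast_nonneg
      linarith
    · rintro rfl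
      simp at h1
  obtain ⟨κ1, κ2, k, T0, hκ1, hκ11, hκ2, hk, hk1, hT0, hgood⟩ := Pool.Agent.V7H88.DT.count2 hRHs
    (5 / 4 - θ) (by linarith) (by linarith) θ (K / 2) (by linarith) (by linarith)
  have hpt : ∀ γ : ℝ, (⟨1 / 2, γ⟩ : ℂ) = 1 / 2 + Complex.I * γ := by
    intro γ
    apply Complex.ext
    · simp
    · simp
  have hmul : ∀ γ : ℝ, SP.mu ⟨1 / 2, γ⟩ = mult γ := by
    intro γ
    unfold SP.mu H370.mult mult
    rw [hpt]
  have hline : ∀ (T : ℝ) (s : ℂ), s ∈ SP.ZZ T → s = ⟨1 / 2, s.im⟩ := by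
    intro T s hs
    apply Complex.ext
    · exact hRHs s hs.1 hs.2.1 hs.2.2.2.2
    · rfl
  have hfinite : ∀ T : ℝ, {γ : ℝ | 0 < γ ∧ γ ≤ T ∧ 0 < mult γ}.Finite := by
    intro T
    refine ((SG.ZS_finite T).image (fun s : ℂ => s.im)).subset ?_
    rintro γ ⟨h1, h2, h3⟩
    refine ⟨⟨1 / 2, γ⟩, ⟨?_, by norm_num, by norm_num, h1, h2⟩, rfl⟩
    rw [hpt]
    exact apply_eq_zero_of_analyticOrderNatAt_ne_zero h3.ne'
  set κ : ℝ := min (min κ1 (κ2 / 2)) (min (k / 2) ((1 - θ) / 2)) with hκ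
  have hκ0 : 0 < κ := lt_min (lt_min hκ1 (by positivity)) (lt_min (by positivity) (by linarith))
  have hκa : κ ≤ κ1 := (min_le_left _ _).trans (min_le_left _ _)
  have hκb : κ ≤ κ2 / 2 := (min_le_left _ _).trans (min_le_right _ _)
  have hκc : κ ≤ k / 2 := (min_le_right _ _).trans (min_le_left _ _)
  have hκd : κ ≤ (1 - θ) / 2 := (min_le_right _ _).trans (min_le_right _ _)
  obtain ⟨a0, ha0, hev⟩ := ev_res K k κ θ T0 hk hk1 hκ0 hκc hκd hθ hθ1 hK
  refine ⟨κ, a0, hκ0, fun a ha r c hr hc hX1 hX2 => ?_⟩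
  obtain ⟨y1, y2, y3, y4, y5, y6, y7, y8, y9, y10, y11, y12⟩ := hev a ha r c hr hc hX1 hX2
  set T1 : ℝ := 2 / 3 * a with hT1
  set X : ℝ := 2 / 3 * (r * a + c) with hX
  have ha100 : 100 ≤ a := ha0.trans ha
  have hapos : 0 < a := by linarith
  have hT1' : (1 : ℝ) ≤ T1 := by linarith
  have hH0 : 0 < a ^ θ := Real.rpow_pos_of_pos hapos _
  have hmain : ∀ (S : Set (ℝ × ℕ)) (σ : ℝ × ℕ → ℝ × ℕ),
        (∀ p ∈ S, a ≤ p.1 ∧ p.1 ≤ a + a ^ θ ∧ p.2 < mult p.1) → Set.InjOn σ S →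
        (∀ p ∈ S, (σ p).2 < mult (σ p).1 ∧ |(σ p).1 - (r * p.1 + c)| ≤ κ / Real.log a) →
        κ * (a ^ θ * Real.log a) ≤
          ({γ : ℝ | a ≤ γ ∧ γ ≤ a + a ^ θ ∧ ∃ j < mult γ, (γ, j) ∉ S}.ncard : ℝ) := by
    intro S σ _ hinj hσ
    set Bk : Finset ℂ := (ZZ_fin hT1').toFinset.filter
      (fun s => a ≤ s.im ∧ s.im ≤ a + a ^ θ) with hBk
    set A : Finset ℂ := Bk.filter (fun s => ∀ j < SP.mu s, (s.im, j) ∈ S) with hA
    have hmemB : ∀ s, s ∈ Bk ↔ s ∈ SP.ZZ T1 ∧ a ≤ s.im ∧ s.im ≤ a + a ^ θ := by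
      intro s
      rw [hBk, Finset.mem_filter, Set.Finite.mem_toFinset]
    have hmemA : ∀ s ∈ A, s ∈ SP.ZZ T1 ∧ ∀ j < SP.mu s, (s.im, j) ∈ S := by
      intro s hs
      rw [hA, Finset.mem_filter, hmemB] at hs
      exact ⟨hs.1.1, hs.2⟩
    have h1 := hgood T1 y1 X c r (a ^ θ) a hr (by rw [hT1]; ring) (by rw [hX]; ring) y5 y6 y7 y8 y9
      y10 y11 y12 Bk A hmemB (Finset.filter_subset _ _)
      (fun p => (⟨1 / 2, (σ (p.1.im, p.2)).1⟩, (σ (p.1.im, p.2)).2))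
      (fun s hs j hj s' hs' j' hj' heq => by
        obtain ⟨a1, a2⟩ := hmemA s hs
        obtain ⟨a3, a4⟩ := hmemA s' hs'
        simp only [Prod.mk.injEq, Complex.mk.injEq, true_and] at heq
        have h2 := hinj (a2 j hj) (a4 j' hj') (Prod.ext heq.1 heq.2)
        rw [Prod.mk.injEq] at h2
        refine ⟨?_, h2.2⟩
        rw [hline T1 s a1, hline T1 s' a3, h2.1])
      (fun s hs j hj => by
        obtain ⟨a1, a2⟩ := hmemA s hs
        obtain ⟨b1, b2⟩ := hσ _ (a2 j hj)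
        refine ⟨rfl, ?_, ?_⟩
        · simp only
          rw [hmul]
          exact b1
        · simp only
          refine b2.trans ?_
          have hlog0 : 0 < Real.log T1 := by linarith
          have hlog1 : 0 < Real.log a := by linarith
          calc κ / Real.log a ≤ κ1 / Real.log a := by gcongr
            _ ≤ κ1 / Real.log T1 := by gcongr)
    have hfin : {γ : ℝ | a ≤ γ ∧ γ ≤ a + a ^ θ ∧ ∃ j < mult γ, (γ, j) ∉ S}.Finite := by
      refine (hfinite (a + a ^ θ)).subset ?_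
      rintro γ ⟨h2, h3, j, hj, -⟩
      exact ⟨by linarith, h3, by omega⟩
    have h2 : (Bk \ A).card ≤
        {γ : ℝ | a ≤ γ ∧ γ ≤ a + a ^ θ ∧ ∃ j < mult γ, (γ, j) ∉ S}.ncard := by
      rw [← Set.ncard_coe_finset]
      refine Set.ncard_le_ncard_of_injOn (fun s : ℂ => s.im) ?_ ?_ hfin
      · intro s hs
        rw [Finset.mem_coe, Finset.mem_sdiff] at hs
        obtain ⟨h3, h4⟩ := hs
        have h5 : ¬ ∀ j < SP.mu s, (s.im, j) ∈ S := by
          intro h6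
          apply h4
          rw [hA, Finset.mem_filter]
          exact ⟨h3, h6⟩
        push Not at h5
        obtain ⟨j, hj, hjS⟩ := h5
        obtain ⟨c1, c2, c3⟩ := (hmemB s).1 h3
        refine ⟨c2, c3, j, ?_, hjS⟩
        rw [← hmul, ← hline T1 s c1]
        exact hj
      · intro s hs s' hs' heq
        rw [Finset.mem_coe, Finset.mem_sdiff] at hs hs'
        have c1 := ((hmemB s).1 hs.1).1
        have c2 := ((hmemB s').1 hs'.1).1
        simp only at heq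
        rw [hline T1 s c1, hline T1 s' c2, heq]
    have h3 : ((Bk \ A).card : ℝ) ≤
        ({γ : ℝ | a ≤ γ ∧ γ ≤ a + a ^ θ ∧ ∃ j < mult γ, (γ, j) ∉ S}.ncard : ℝ) := by
      exact_mod_cast h2
    refine le_trans ?_ (h1.trans h3)
    have h4 : a ^ θ * Real.log a ≤ 2 * (a ^ θ * Real.log T1) := by
      calc a ^ θ * Real.log a ≤ a ^ θ * (2 * Real.log T1) := by gcongr
        _ = _ := by ring
    calc κ * (a ^ θ * Real.log a) ≤ κ2 / 2 * (2 * (a ^ θ * Real.log T1)) := by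
          have h6 : 0 ≤ a ^ θ * Real.log a := mul_nonneg hH0.le (by linarith)
          exact mul_le_mul hκb h4 h6 (by positivity)
      _ = _ := by ring
  refine ⟨hmain, ?_⟩
  have hr0 : r ≠ 0 := by
    rcases hr with rfl | rfl <;> norm_num
  have h1 := hmain {p : ℝ × ℕ | a ≤ p.1 ∧ p.1 ≤ a + a ^ θ ∧ p.2 < mult p.1 ∧
      mult p.1 ≤ mult (r * p.1 + c)}
    (fun p => (r * p.1 + c, p.2)) (fun p hp => ⟨hp.1, hp.2.1, hp.2.2.1⟩)
    (fun p _ q _ heq => by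
      simp only [Prod.mk.injEq] at heq
      refine Prod.ext ?_ heq.2
      have h2 : r * p.1 = r * q.1 := by linarith [heq.1]
      exact mul_left_cancel₀ hr0 h2)
    (fun p hp => by
      refine ⟨lt_of_lt_of_le hp.2.2.1 hp.2.2.2, ?_⟩
      simp only [sub_self, abs_zero]
      have : 0 < Real.log a := by linarith
      positivity)
  refine h1.trans ?_
  have h2 : {γ : ℝ | a ≤ γ ∧ γ ≤ a + a ^ θ ∧ ∃ j < mult γ, (γ, j) ∉
      {p : ℝ × ℕ | a ≤ p.1 ∧ p.1 ≤ a + a ^ θ ∧ p.2 < mult p.1 ∧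
        mult p.1 ≤ mult (r * p.1 + c)}} ⊆
      {γ : ℝ | a ≤ γ ∧ γ ≤ a + a ^ θ ∧ mult (r * γ + c) < mult γ} := by
    rintro γ ⟨h3, h4, j, hj, hn⟩
    refine ⟨h3, h4, ?_⟩
    by_contra hcon
    push Not at hcon
    exact hn ⟨h3, h4, hj, hcon⟩
  have h3 : {γ : ℝ | a ≤ γ ∧ γ ≤ a + a ^ θ ∧ mult (r * γ + c) < mult γ}.Finite := by
    refine (hfinite (a + a ^ θ)).subset ?_
    rintro γ ⟨h4, h5, h6⟩
    exact ⟨by linarith, h5, by omega⟩
  exact_mod_cast Set.ncard_le_ncard h2 h3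

end Pool.Agent.Results.MP_0ec205_nt.TranslatedOrdinatesH88
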